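import Pool.Agent.Lib.MP_6d0ce9_ag.Num
import Pool.Agent.Lib.MP_6d0ce9_ag.St.TotK
import Pool.Agent.Lib.MP_6d0ce9_ag.St.Bas

/-!
# Vanishing and nondegeneracy mean that the category is semisimple
-/

set_option linter.unusedSectionVars false

universe w v u

open CategoryTheory Category Limits MonoidalCategory Pretriangulated Triangulated
  ObjectProperty

namespace Pool.Agent.Lib.MotT

section Alg

variable {F : Type*} [Field F] {V W V' W' : Type*} [AddCommGroup V] [Module F V]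
  [AddCommGroup W] [Module F W] [AddCommGroup V'] [Module F V'] [AddCommGroup W'] [Module F W']

/-- generalised inverses of linear maps -/
lemma ss_inverse (f : V →ₗ[F] W) : ∃ s : W →ₗ[F] V, ∀ x, f (s (f x)) = f x := by
  obtain ⟨t, ht⟩ := f.rangeRestrict.exists_rightInverse_of_surjective
    (LinearMap.range_rangeRestrict f)
  obtain ⟨s, hs⟩ := t.exists_extend
  refine ⟨s, fun x => ?_⟩
  have h1 : s (f x) = t (f.rangeRestrict x) := LinearMap.congr_fun hs (f.rangeRestrict x)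
  rw [h1]
  exact congrArg Subtype.val (LinearMap.congr_fun ht (f.rangeRestrict x))

/-- an element which comes from both sides comes from both sides at the same time -/
lemma ss_tensor (f : V →ₗ[F] W) (f' : W' →ₗ[F] V') (a : TensorProduct F V V')
    (b : TensorProduct F W W')
    (h : TensorProduct.map f LinearMap.id a = TensorProduct.map LinearMap.id f' b) :
    ∃ c : TensorProduct F V W', TensorProduct.map f f' c =
      TensorProduct.map f LinearMap.id a := by
  obtain ⟨s, hs⟩ := ss_inverse f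
  refine ⟨TensorProduct.map s LinearMap.id b, ?_⟩
  have h1 : ∀ a : TensorProduct F V V', TensorProduct.map (f.comp s) LinearMap.id
      (TensorProduct.map f LinearMap.id a) = TensorProduct.map f LinearMap.id a := by
    intro a
    induction a using TensorProduct.induction_on with
    | zero => simp
    | add a b ha hb => rw [map_add, map_add, ha, hb]
    | tmul x y => simp [hs]
  have h2 : ∀ b : TensorProduct F W W', TensorProduct.map (f.comp s) LinearMap.id
      (TensorProduct.map LinearMap.id f' b) = TensorProduct.map f f'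
        (TensorProduct.map s LinearMap.id b) := by
    intro a
    induction a using TensorProduct.induction_on with
    | zero => simp
    | add a b ha hb => rw [map_add, map_add, map_add, map_add, ha, hb]
    | tmul x y => simp
  rw [← h2, ← h, h1]

end Alg

section Mon

variable {T : Type u} [Category.{v} T] [MonoidalCategory T]

lemma ss_transpose {X X' Y Y' : T} [ExactPairing X X'] [ExactPairing Y Y'] (f : X ⟶ Y) :
    ∃ f' : Y' ⟶ X', η_ Y Y' ≫ Y ◁ f' = η_ X X' ≫ f ▷ X' := by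
  let _ : HasRightDual X := ⟨X'⟩
  let _ : HasRightDual Y := ⟨Y'⟩
  exact ⟨fᘁ, coevaluation_comp_rightAdjointMate f⟩

lemma ss_name {X Y Y' : T} [ExactPairing Y Y'] (u : 𝟙_ T ⟶ X ⊗ Y') :
    ∃ g : Y ⟶ X, η_ Y Y' ≫ g ▷ Y' = u := by
  refine ⟨(λ_ Y).inv ≫ (tensorRightHomEquiv (𝟙_ T) Y Y' X).symm u, ?_⟩
  have h2 : ∀ g : Y ⟶ X, tensorRightHomEquiv (𝟙_ T) Y Y' X ((λ_ Y).hom ≫ g) =
      η_ Y Y' ≫ g ▷ Y' := by
    intro g
    simp [tensorRightHomEquiv, unitors_equal]
  rw [← h2, Iso.hom_inv_id_assoc, Equiv.apply_symm_apply]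

end Mon

section Perfect

variable {T : Type u} [Category.{v} T] [Preadditive T] [HasZeroObject T] [HasShift T ℤ]
  [∀ n : ℤ, (shiftFunctor T n).Additive] [Pretriangulated T] [MonoidalCategory T]
  [SymmetricCategory T] [∀ X : T, (tensorLeft X).CommShift ℤ]
  [∀ X : T, (tensorLeft X).IsTriangulated] {S : ObjectProperty T}
  {F : Type w} [Field F] (R : Realization T F)

include R in
/-- the pairings `Hom(𝟙, M) × Hom(M, 𝟙) → End(𝟙)` are perfect -/
lemma ss_perfect (hS : IsChowClass S) (hp : Parshin S) (hn : RatEqNum S) (M : T) :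
    Perf.Inj (𝟙_ T) M ∧ Perf.Surj (𝟙_ T) M := by
  have hD := hS.field
  obtain ⟨c₀, hc₀⟩ := R.nontrivial_unit
  have h1 : (𝟙 (𝟙_ T) : 𝟙_ T ⟶ 𝟙_ T) ≠ 0 := by
    intro h
    apply hc₀
    have h2 : R.mp 0 (𝟙 (𝟙_ T)) c₀ = 0 := by rw [h, R.mp_zero, LinearMap.zero_apply]
    rwa [R.mp_id] at h2
  have hnt : Nontrivial (End (𝟙_ T))ᵐᵒᵖ :=
    ⟨⟨1, 0, fun h => h1 (congrArg MulOpposite.unop h)⟩⟩
  have hD' : ∀ a : (End (𝟙_ T))ᵐᵒᵖ, IsUnit a ∨ a = 0 := by
    intro a
    by_cases ha : a = 0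
    · exact Or.inr ha
    · left
      have h2 : IsIso (a.unop : 𝟙_ T ⟶ 𝟙_ T) := hD _ fun h => ha (MulOpposite.unop_injective h)
      rw [← isUnit_unop]
      exact (isUnit_iff_isIso _).2 h2
  have hfin : ∀ A, S A → ∀ s : Finset (𝟙_ T ⟶ A),
      (LinearIndepOn (End (𝟙_ T))ᵐᵒᵖ id (s : Set (𝟙_ T ⟶ A))) →
        s.card ≤ Module.finrank F (R.Hm 0 A) := by
    classical
    intro A hA s hs
    obtain ⟨c, hc⟩ := Perf.exists_dual hD (hn A hA) s hs
    have hfi : Module.Finite F (R.Hm 0 A) := R.finite 0 A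
    have h2 : LinearIndependent F (fun x : s => R.mp 0 (x : 𝟙_ T ⟶ A) c₀) := by
      rw [Fintype.linearIndependent_iff]
      intro a ha y
      have h3 := congrArg (R.mp 0 (c y)) ha
      rw [map_zero, map_sum, Finset.sum_eq_single y] at h3
      · rw [map_smul, ← R.mp_comp_apply, hc y y.2 y y.2, if_pos rfl, R.mp_id,
          LinearMap.id_apply, smul_eq_zero] at h3
        exact h3.resolve_right hc₀
      · intro x _ hxy
        rw [map_smul, ← R.mp_comp_apply, hc x x.2 y y.2,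
          if_neg (fun h => hxy (Subtype.ext h)), R.mp_zero, LinearMap.zero_apply, smul_zero]
      · intro h
        exact absurd (Finset.mem_univ y) h
    have h4 := h2.fintype_card_le_finrank
    rwa [Fintype.card_coe] at h4
  have hall : S ≤ Perf.All (𝟙_ T) := by
    intro A hA n
    obtain ⟨A', hA', ⟨hAA⟩⟩ := hS.dual A hA
    rcases eq_or_ne n 0 with rfl | hn0
    · have e : Retract (A⟦(0 : ℤ)⟧) A := ((shiftFunctorZero T ℤ).app A).retract
      refine ⟨Perf.Inj.of_retract e ?_, Perf.Surj.of_retract e ?_⟩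
      · intro g hg
        by_contra hne
        have h2 : (tr g : 𝟙_ T ⟶ 𝟙_ T ⊗ A') ≫ (λ_ A').hom ≠ 0 := by
          intro h0
          apply hne
          apply tr_injective (A' := A')
          rw [← cancel_mono (λ_ A').hom, h0, zero_comp]
        obtain ⟨h, hh⟩ := hn A' hA' _ h2
        apply hh
        rw [assoc, tr_comp, hg]
      · exact Perf.surj_of_nondeg hD hD' (hn A hA) _ (hfin A hA)
    · have hv : ∀ B, S B → ∀ m : ℤ, m ≠ 0 → ∀ f : 𝟙_ T ⟶ B⟦m⟧, f = 0 := by
        intro B hB m hm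
        rcases lt_or_gt_of_ne hm with h | h
        · exact hp B hB m h
        · exact hS.pos B hB m h
      refine ⟨fun g _ => eq_zero_of_dual n (hv A' hA' (-n) (by lia)) g, fun l => ⟨0, fun f => ?_⟩⟩
      rw [hv A hA n hn0 f, map_zero, zero_comp]
  have hM := Perf.all_of_generator hD' hS.generates hall M
  have e : Retract M (M⟦(0 : ℤ)⟧) := ((shiftFunctorZero T ℤ).app M).symm.retract
  exact ⟨(hM 0).1.of_retract e, (hM 0).2.of_retract e⟩

/-- an element of the cohomology of a tensor product which comes from both sides -/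
lemma ss_tot {X X' Y Y' : T} (f : X ⟶ Y) (f' : Y' ⟶ X') (a : R.Tot (X ⊗ X'))
    (b : R.Tot (Y ⊗ Y')) (h : R.tmap (f ▷ X') a = R.tmap (Y ◁ f') b) :
    ∃ c : R.Tot (X ⊗ Y'), R.tmap (f ⊗ₘ f') c = R.tmap (f ▷ X') a := by
  let K := fun A B : T => TensorProduct.lift (R.tcup A B)
  have hK : ∀ A B : T, Function.Bijective (K A B) := fun A B => R.tcup_bijective A B
  have hn : ∀ {A B A' B' : T} (g : A ⟶ A') (g' : B ⟶ B') (z : TensorProduct F (R.Tot A) (R.Tot B)),
      K A' B' (TensorProduct.map (R.tmap g) (R.tmap g') z) = R.tmap (g ⊗ₘ g') (K A B z) := by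
    intro A B A' B' g g' z
    induction z using TensorProduct.induction_on with
    | zero => simp
    | add a b ha hb => rw [map_add, map_add, ha, hb, map_add, map_add]
    | tmul x y =>
      rw [TensorProduct.map_tmul]
      exact (R.tcup_natural g g' x y).symm
  obtain ⟨a, rfl⟩ := (hK _ _).2 a
  obtain ⟨b, rfl⟩ := (hK _ _).2 b
  have h1 : R.tmap (f ▷ X') (K X X' a) =
      K Y X' (TensorProduct.map (R.tmap f) LinearMap.id a) := by
    rw [← R.tmap_id, hn, tensorHom_id]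
  have h2 : R.tmap (Y ◁ f') (K Y Y' b) =
      K Y X' (TensorProduct.map LinearMap.id (R.tmap f') b) := by
    rw [← R.tmap_id, hn, id_tensorHom]
  rw [h1, h2] at h
  obtain ⟨c, hc⟩ := ss_tensor (R.tmap f) (R.tmap f') a b ((hK _ _).1 h)
  refine ⟨K X Y' c, ?_⟩
  rw [← hn, hc, h1]

include R in
/-- Vanishing and nondegeneracy imply that the category is semisimple. -/
theorem semisimple_of_ratEqNum (hrig : IsRigid T) (hS : IsChowClass S)
    (hp : Parshin S) (hn : RatEqNum S) {X Y : T} (f : X ⟶ Y) : ∃ g : Y ⟶ X, f ≫ g ≫ f = f := by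
  have hperf := ss_perfect R hS hp hn
  obtain ⟨X', ⟨_⟩⟩ := hrig X
  obtain ⟨Y', ⟨_⟩⟩ := hrig Y
  obtain ⟨f', hf'⟩ := ss_transpose (X' := X') (Y' := Y') f
  obtain ⟨c₀, hc₀⟩ := R.nontrivial_unit
  have h1 : (𝟙 (𝟙_ T) : 𝟙_ T ⟶ 𝟙_ T) ≠ 0 := by
    intro h
    apply hc₀
    have h2 : R.mp 0 (𝟙 (𝟙_ T)) c₀ = 0 := by rw [h, R.mp_zero, LinearMap.zero_apply]
    rwa [R.mp_id] at h2
  have hnt : Nontrivial (End (𝟙_ T))ᵐᵒᵖ :=
    ⟨⟨1, 0, fun h => h1 (congrArg MulOpposite.unop h)⟩⟩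
  have hD' : ∀ a : (End (𝟙_ T))ᵐᵒᵖ, IsUnit a ∨ a = 0 := by
    intro a
    by_cases ha : a = 0
    · exact Or.inr ha
    · left
      have h2 : IsIso (a.unop : 𝟙_ T ⟶ 𝟙_ T) :=
        hS.field _ fun h => ha (MulOpposite.unop_injective h)
      rw [← isUnit_unop]
      exact (isUnit_iff_isIso _).2 h2
  -- the name of `f` comes from the unit
  obtain ⟨u, hu⟩ : ∃ u : 𝟙_ T ⟶ X ⊗ Y', u ≫ (f ⊗ₘ f') = η_ X X' ≫ f ▷ X' := by
    by_contra hcon
    let N := LinearMap.range (Perf.post (𝟙_ T) (f ⊗ₘ f'))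
    have hne : N.mkQ (η_ X X' ≫ f ▷ X') ≠ 0 := by
      intro h0
      rw [Submodule.mkQ_apply, Submodule.Quotient.mk_eq_zero] at h0
      obtain ⟨u, hu⟩ := h0
      exact hcon ⟨u, hu⟩
    obtain ⟨k, hk⟩ := Perf.exists_form hD' hne h1
    obtain ⟨h, hh⟩ := (hperf (Y ⊗ X')).2 (k.comp N.mkQ)
    have h3 : (f ⊗ₘ f') ≫ h = 0 := by
      apply (hperf (X ⊗ Y')).1
      intro u
      rw [← assoc, ← hh, LinearMap.comp_apply]
      have h4 : N.mkQ (u ≫ (f ⊗ₘ f')) = 0 := by
        rw [Submodule.mkQ_apply, Submodule.Quotient.mk_eq_zero]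
        exact ⟨u, rfl⟩
      rw [h4, map_zero]
    have h5 : (η_ X X' ≫ f ▷ X') ≫ h ≠ 0 := by
      rw [← hh]
      exact hk
    have hiso := hS.field _ h5
    let c := R.inc 0 (𝟙_ T) c₀
    have hc : c ≠ 0 := fun h0 => hc₀ (R.inc_injective 0 _ (by rw [map_zero]; exact h0))
    obtain ⟨w, hw⟩ := ss_tot R f f' (R.tmap (η_ X X') c) (R.tmap (η_ Y Y') c)
      (by rw [← R.tmap_comp_apply, ← R.tmap_comp_apply, hf'])
    have h6 : R.tmap ((η_ X X' ≫ f ▷ X') ≫ h) c = 0 := by
      rw [R.tmap_comp_apply, R.tmap_comp_apply, ← hw, ← R.tmap_comp_apply, h3, R.tmap_zero,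
        LinearMap.zero_apply]
    apply hc
    have h7 : R.tmap (((η_ X X' ≫ f ▷ X') ≫ h) ≫ inv ((η_ X X' ≫ f ▷ X') ≫ h)) c = c := by
      rw [IsIso.hom_inv_id, R.tmap_id, LinearMap.id_apply]
    rw [← h7, R.tmap_comp_apply, h6, map_zero]
  obtain ⟨g, rfl⟩ := ss_name (Y := Y) (Y' := Y') u
  refine ⟨g, ?_⟩
  have h8 : η_ X X' ≫ (f ≫ g ≫ f) ▷ X' = η_ X X' ≫ f ▷ X' := by
    rw [← hu, comp_whiskerRight, ← assoc, ← hf', assoc, assoc, whisker_exchange,
      MonoidalCategory.tensorHom_def, comp_whiskerRight, assoc]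
  have h9 : f ≫ g ≫ f - f = 0 := by
    apply tr_injective (A' := X')
    rw [tr]
    have h10 : (f ≫ g ≫ f - f) ▷ X' = (f ≫ g ≫ f) ▷ X' - f ▷ X' :=
      (tensorRight X').map_sub (f := f ≫ g ≫ f) (g := f)
    rw [h10, Preadditive.comp_sub, h8, sub_self]
  exact sub_eq_zero.1 h9

/-- If the category is semisimple then vanishing and nondegeneracy hold. -/
theorem ratEqNum_of_semisimple (hS : IsChowClass S)
    (h : ∀ (X Y : T) (f : X ⟶ Y), ∃ g : Y ⟶ X, f ≫ g ≫ f = f) : Parshin S ∧ RatEqNum S := by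
  constructor
  · intro A hA n hn f
    obtain ⟨A', hA', ⟨hAA⟩⟩ := hS.dual A hA
    obtain ⟨g, hg⟩ := h _ _ f
    have h1 : g = 0 := eq_zero_of_dual (A' := A') n (hS.pos A' hA' (-n) (by lia)) g
    rw [← hg, h1, zero_comp, comp_zero]
  · intro A _ f hf
    obtain ⟨g, hg⟩ := h _ _ f
    refine ⟨g, fun h0 => hf ?_⟩
    rw [← hg, ← assoc, h0, zero_comp]

end Perfect

end Pool.Agent.Lib.MotT
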